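import Mathlib
import Pool.Agent.Helper34.KreinMain

/-!
Every measurable element of `R_A` is the sum of a continuous element of `R_A` and a measurable
element of `R_A` that vanishes almost everywhere, and the norms add up.
-/

set_option autoImplicit false

open MeasureTheory

namespace Pool.Agent.Results.MP_410e25_an.MeasurableSplit

/-- The symmetric open interval `(-A, A)`, for `A` in `(0, ∞]`. -/
def band (A : ENNReal) : Set ℝ := {x : ℝ | ENNReal.ofReal |x| < A}

/-- Value at `t` of the almost periodic polynomial `∑ c_x e^{i x t}` (finite sum). -/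
noncomputable def apEval (c : ℝ →₀ ℂ) (t : ℝ) : ℂ :=
  ∑ x ∈ c.support, c x * Complex.exp (Complex.I * (x : ℂ) * (t : ℂ))

/-- The functional `Φ_f`, sending `∑ c_x e_x` to `∑ c_x f(x)`. -/
noncomputable def functional (f : ℝ → ℂ) (c : ℝ →₀ ℂ) : ℂ :=
  ∑ x ∈ c.support, c x * f x

/-- `C` bounds the functional `Φ_f` on almost periodic polynomials with exponents in `(-A, A)`. -/
def IsBound (A : ENNReal) (f : ℝ → ℂ) (C : ℝ) : Prop :=
  0 ≤ C ∧ ∀ c : ℝ →₀ ℂ, (∀ x ∈ c.support, x ∈ band A) →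
    ∀ M : ℝ, (∀ t : ℝ, ‖apEval c t‖ ≤ M) → ‖functional f c‖ ≤ C * M

/-- `f` restricted to `(-A, A)` belongs to `R_A`. -/
def MemR (A : ENNReal) (f : ℝ → ℂ) : Prop := ∃ C : ℝ, IsBound A f C

/-- The norm of `f` in `R_A`: the operator norm of `Φ_f`, the least bound. -/
noncomputable def normR (A : ENNReal) (f : ℝ → ℂ) : ℝ := sInf {C : ℝ | IsBound A f C}

/-- Sanity: `(-A, A)` is the usual interval for finite `A` and the line for `A = ∞`. -/
lemma band_ofReal (A : ℝ) : band (ENNReal.ofReal A) = Set.Ioo (-A) A := by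
  ext x
  simp only [band, Set.mem_ofPred_eq, Set.mem_Ioo]
  rw [ENNReal.ofReal_lt_ofReal_iff', abs_lt]
  constructor
  · rintro ⟨h, -⟩
    exact h
  · intro h
    exact ⟨h, by linarith [h.1, h.2]⟩

lemma band_top : band ⊤ = Set.univ := by
  ext x
  simp [band]

lemma isOpen_band (A : ENNReal) : IsOpen (band A) := by
  have h : Continuous fun x : ℝ => ENNReal.ofReal |x| :=
    ENNReal.continuous_ofReal.comp continuous_abs
  exact isOpen_lt h continuous_const

lemma bddBelow_bounds (A : ENNReal) (f : ℝ → ℂ) : BddBelow {C : ℝ | IsBound A f C} :=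
  ⟨0, fun _ hC => hC.1⟩

/-- The least bound is a bound: the norm is attained. -/
lemma isBound_normR {A : ENNReal} {f : ℝ → ℂ} (hf : MemR A f) : IsBound A f (normR A f) := by
  have hne : {C : ℝ | IsBound A f C}.Nonempty := hf
  refine ⟨le_csInf hne fun _ hC => hC.1, fun c hc M hM => ?_⟩
  have hM0 : 0 ≤ M := (norm_nonneg _).trans (hM 0)
  rcases hM0.eq_or_lt with hM0 | hM0
  · obtain ⟨C, hC⟩ := hf
    have := hC.2 c hc M hM
    rw [← hM0, mul_zero] at this ⊢
    exact this
  · rw [← div_le_iff₀ hM0]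
    refine le_csInf hne fun C hC => ?_
    rw [div_le_iff₀ hM0]
    exact hC.2 c hc M hM

lemma functional_congr {A : ENNReal} {f g : ℝ → ℂ} (h : ∀ x ∈ band A, f x = g x)
    {c : ℝ →₀ ℂ} (hc : ∀ x ∈ c.support, x ∈ band A) : functional f c = functional g c := by
  refine Finset.sum_congr rfl fun x hx => ?_
  rw [h x (hc x hx)]

lemma IsBound.congr {A : ENNReal} {f g : ℝ → ℂ} {C : ℝ} (hf : IsBound A f C)
    (h : ∀ x ∈ band A, g x = f x) : IsBound A g C := by
  refine ⟨hf.1, fun c hc M hM => ?_⟩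
  rw [functional_congr h hc]
  exact hf.2 c hc M hM

lemma normR_le_add {A : ENNReal} {f g h : ℝ → ℂ} (hg : MemR A g) (hh : MemR A h)
    (hfgh : ∀ x ∈ band A, f x = g x + h x) : normR A f ≤ normR A g + normR A h := by
  have h1 := isBound_normR hg
  have h2 := isBound_normR hh
  refine csInf_le (bddBelow_bounds _ _) ⟨add_nonneg h1.1 h2.1, fun c hc M hM => ?_⟩
  have e : functional f c = functional g c + functional h c := by
    unfold functional
    rw [← Finset.sum_add_distrib]
    refine Finset.sum_congr rfl fun x hx => ?_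
    rw [hfgh x (hc x hx)]
    ring
  rw [e, add_mul]
  exact (norm_add_le _ _).trans (add_le_add (h1.2 c hc M hM) (h2.2 c hc M hM))

open Pool.Agent.Helper34.Krein in
/-- Every measurable `f` in `R_A` is `f_c + f_m` with `f_c` a continuous and `f_m` a measurable
element of `R_A`, `f_m = 0` almost everywhere, and the norm of `f` is the sum of the norms of
`f_c` and `f_m`. -/
theorem result (A : ENNReal) (_ : 0 < A) (f : ℝ → ℂ) (hf : MemR A f)
    (hfm : AEMeasurable f (volume.restrict (band A))) :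
    ∃ fc fm : ℝ → ℂ, (∀ x ∈ band A, f x = fc x + fm x) ∧
      (MemR A fc ∧ ContinuousOn fc (band A)) ∧
      (MemR A fm ∧ AEMeasurable fm (volume.restrict (band A)) ∧
        ∀ᵐ x ∂(volume.restrict (band A)), fm x = 0) ∧
      normR A f = normR A fc + normR A fm := by
  have hC := isBound_normR hf
  set C := normR A f with hCdef
  obtain ⟨H, i1, i2, i3, π, u, v, hπ, hb, hu, hv, hrep⟩ := exists_rep (band A) f C (by
      intro h hh M hM
      rw [Phi_apply]
      refine hC.2 h ?_ M ?_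
      · intro x hx
        exact (Finsupp.mem_supported ℂ h).1 hh hx
      · intro t
        have := hM t
        rw [ap_apply] at this
        exact this)
  have hF : AEStronglyMeasurable (fun l : ℝ => inner ℂ v (π l u)) (volume.restrict (band A)) := by
    refine hfm.aestronglyMeasurable.congr ?_
    filter_upwards [self_mem_ae_restrict (isOpen_band A).measurableSet] with x hx
    exact hrep x hx
  obtain ⟨uc, u0, u2, hsum, hc, h0, hnorm, hz⟩ := hπ.decomposition u v (isOpen_band A) hF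
  have horth : (inner ℂ uc u0 : ℂ) = 0 := hπ.inner_Hc_H0 hc h0
  have hpyth : ‖uc + u0‖ ^ 2 = ‖uc‖ ^ 2 + ‖u0‖ ^ 2 := by
    have := norm_add_sq_eq_norm_sq_add_norm_sq_of_inner_eq_zero uc u0 horth
    nlinarith [this]
  have hc1 := (isClosed_Hc π).completeSpace_coe
  have hc0 := (isClosed_H0 π).completeSpace_coe
  set vc := (Hc π).starProjection v with hvcdef
  have hvc : vc ∈ Hc π := Submodule.starProjection_apply_mem _ _
  have hvc' : v - vc ∈ (Hc π)ᗮ := Submodule.sub_starProjection_mem_orthogonal v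
  set v0 := (H0 π).starProjection v with hv0def
  have hv0 : v0 ∈ H0 π := Submodule.starProjection_apply_mem _ _
  have hv0' : v - v0 ∈ (H0 π)ᗮ := Submodule.sub_starProjection_mem_orthogonal v
  have horthv : (inner ℂ vc v0 : ℂ) = 0 := hπ.inner_Hc_H0 hvc hv0
  have horthv' : (inner ℂ v0 vc : ℂ) = 0 := by
    rw [← inner_conj_symm, horthv, map_zero]
  have hpythv : ‖vc‖ ^ 2 + ‖v0‖ ^ 2 ≤ ‖v‖ ^ 2 := by
    have h1 : ‖vc + v0‖ ^ 2 = ‖vc‖ ^ 2 + ‖v0‖ ^ 2 := by
      have := norm_add_sq_eq_norm_sq_add_norm_sq_of_inner_eq_zero vc v0 horthv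
      nlinarith [this]
    have h2 : (inner ℂ (vc + v0) (v - vc - v0) : ℂ) = 0 := by
      have e1 : (inner ℂ vc (v - vc - v0) : ℂ) = 0 := by
        rw [inner_sub_right, horthv, (Submodule.mem_orthogonal _ _).1 hvc' vc hvc, sub_zero]
      have e2 : (inner ℂ v0 (v - vc - v0) : ℂ) = 0 := by
        have e3 : v - vc - v0 = (v - v0) - vc := by abel
        rw [e3, inner_sub_right, horthv', (Submodule.mem_orthogonal _ _).1 hv0' v0 hv0, sub_zero]
      rw [inner_add_left, e1, e2, add_zero]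
    have h3 := norm_add_sq_eq_norm_sq_add_norm_sq_of_inner_eq_zero (vc + v0) (v - vc - v0) h2
    have h4 : vc + v0 + (v - vc - v0) = v := by abel
    rw [h4] at h3
    nlinarith [sq_nonneg ‖v - vc - v0‖]
  have ec : ∀ x : ℝ, (inner ℂ v (π x uc) : ℂ) = inner ℂ vc (π x uc) := by
    intro x
    have h1 := (Submodule.mem_orthogonal' _ _).1 hvc' _ (hπ.Hc_invariant hc x)
    rw [inner_sub_left, sub_eq_zero] at h1
    exact h1
  have e0 : ∀ x : ℝ, (inner ℂ v (π x u0) : ℂ) = inner ℂ v0 (π x u0) := by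
    intro x
    have h1 := (Submodule.mem_orthogonal' _ _).1 hv0' _ (hπ.H0_invariant h0 x)
    rw [inner_sub_left, sub_eq_zero] at h1
    exact h1
  have hbound : ∀ z w : H, IsBound A (fun x => inner ℂ z (π x w)) (‖z‖ * ‖w‖) := by
    intro z w
    refine ⟨by positivity, fun c _ M hM => ?_⟩
    have h1 := norm_Phi_coeff_le hb z w c M (by
      intro t
      rw [ap_apply]
      exact hM t)
    rw [Phi_apply] at h1
    exact h1
  have hcont : Continuous fun x : ℝ => (inner ℂ v (π x uc) : ℂ) := by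
    have h3 : Continuous fun l : ℝ => π l uc := hc
    exact continuous_const.inner h3
  have hae : (fun x : ℝ => (inner ℂ v (π x u0) : ℂ)) =ᵐ[volume] fun _ => (0 : ℂ) := h0 v
  have hdec : ∀ x ∈ band A, f x = inner ℂ v (π x uc) + inner ℂ v (π x u0) := by
    intro x hx
    rw [hrep x hx, hsum, map_add (π x) (uc + u0) u2, inner_add_right, hz x hx, add_zero,
      map_add, inner_add_right]
  have hbc : IsBound A (fun x => inner ℂ v (π x uc)) (‖vc‖ * ‖uc‖) :=
    (hbound vc uc).congr (fun x _ => ec x)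
  have hb0 : IsBound A (fun x => inner ℂ v (π x u0)) (‖v0‖ * ‖u0‖) :=
    (hbound v0 u0).congr (fun x _ => e0 x)
  refine ⟨fun x => inner ℂ v (π x uc), fun x => inner ℂ v (π x u0), hdec,
    ⟨⟨_, hbc⟩, hcont.continuousOn⟩,
    ⟨⟨_, hb0⟩, ((aemeasurable_const (b := (0:ℂ))).congr hae.symm).restrict,
      ae_restrict_of_ae hae⟩, le_antisymm (normR_le_add ⟨_, hbc⟩ ⟨_, hb0⟩ hdec) ?_⟩
  have h1 : normR A (fun x => inner ℂ v (π x uc)) ≤ ‖vc‖ * ‖uc‖ :=
    csInf_le (bddBelow_bounds _ _) hbc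
  have h2 : normR A (fun x => inner ℂ v (π x u0)) ≤ ‖v0‖ * ‖u0‖ :=
    csInf_le (bddBelow_bounds _ _) hb0
  have h3 : ‖vc‖ * ‖uc‖ + ‖v0‖ * ‖u0‖ ≤ C := by
    nlinarith [sq_nonneg (‖vc‖ - ‖uc‖), sq_nonneg (‖v0‖ - ‖u0‖), sq_nonneg ‖u2‖]
  linarith

end Pool.Agent.Results.MP_410e25_an.MeasurableSplit
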